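import Pool.Agent.H615Z.IsoFinal

set_option autoImplicit false

namespace Pool.Agent.Results.MP_236c69_co.AIsostatic

open Pool.Agent.H615Z.IsoDefs

/-- Let `P` be the centrally symmetric quadrilateral with vertices `a, b, -a, -b`, let `τ` be a
linear reflection preserving `P` and swapping its facets, and let `σ` be an automorphism of order
at most two of a finite `(2,2)`-tight graph `G` fixing no edge. Then `G` has a well-positioned,
isostatic placement `p` which is symmetric with respect to `σ` and `τ`. -/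
theorem result {V : Type*} [Finite V] (a b : Fin 2 → ℝ) (hab : LinearIndependent ℝ ![a, b])
    (τ : (Fin 2 → ℝ) →ₗ[ℝ] (Fin 2 → ℝ)) (_hτ : ∀ x, τ (τ x) = x) (hdet : LinearMap.det τ = -1)
    (hP : τ '' quad a b = quad a b)
    (hswap : ¬ ∀ i, τ '' facet a b i = facet a b i ∨ τ '' facet a b i = -facet a b i)
    (G : SimpleGraph V) (σ : G ≃g G) (hσ : ∀ v, σ (σ v) = v) (ht : Tight22 G)
    (hfix : ∀ e ∈ G.edgeSet, Sym2.map σ e ≠ e) :
    ∃ p : V → Fin 2 → ℝ, WellPositioned a b G p ∧ Isostatic a b G p ∧ ∀ v, p (σ v) = τ (p v) :=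
  Pool.Agent.H615Z.Iso.main a b hab τ hdet hP hswap G σ hσ ht hfix

end Pool.Agent.Results.MP_236c69_co.AIsostatic
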